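import Pool.Agent.Helper20.ZT.Explicit
import Pool.Agent.Helper11.ZP.RatCurve

/-! # An explicit curve in general position at the cusps -/

namespace Pool.Agent.Helper11.ZT
open Pool.Agent.Helper11.ZP Pool.Agent.Helper20.ZT

section
open Finset MvPolynomial

/-- a valuation ring of `ℂ` above `p` -/
lemma exists_place_above {p : ℕ} (hp : p.Prime) : ∃ O : ValuationSubring ℂ, (p : ℂ) ∈ O.nonunits := by
  let A : Subring ℂ := (Int.castRingHom ℂ).range
  have hI : Ideal.span {(p : A)} ≠ ⊤ := by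
    intro ht
    obtain ⟨y, hy⟩ := (Ideal.mem_span_singleton'.1 ((Ideal.eq_top_iff_one _).1 ht))
    obtain ⟨m, hm⟩ := y.2
    have h1 : (y : ℂ) * p = 1 := by
      have := congrArg Subtype.val hy
      simpa using this
    rw [← hm] at h1
    have h2 : m * p = 1 := by
      have : ((m * p : ℤ) : ℂ) = ((1 : ℤ) : ℂ) := by push_cast; simpa using h1
      exact_mod_cast this
    have h3 : (p : ℤ) ∣ 1 := ⟨m, by rw [mul_comm]; exact h2.symm⟩
    exact (Nat.prime_iff_prime_int.1 hp).not_isUnit (isUnit_of_dvd_one h3)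
  obtain ⟨O, hO1, hO2⟩ := Ideal.image_subset_nonunits_valuationSubring (Ideal.span {(p : A)}) hI
  refine ⟨O, ?_⟩
  have := hO2 ⟨(p : A), Ideal.mem_span_singleton_self _, rfl⟩
  simpa using this

/-- the curve `z i = s / (1 - i s)` -/
def curve (n : ℕ) : Set (Fin n → ℂ) := {z | ∃ s : ℂ, ∀ i : Fin n, 1 - i * s ≠ 0 ∧ z i = s / (1 - i * s)}

/-- it is in general position at the cusps above all primes `p ≥ n` -/
lemma genPosAt_curve {n p : ℕ} (hp : p.Prime) (hn : n ≤ p) {O : ValuationSubring ℂ}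
    (hpO : (p : ℂ) ∈ O.nonunits) : GenPosAt O 1 (curve n) := by
  classical
  intro J hJ
  obtain ⟨i, j, hij, rfl⟩ := Finset.card_eq_two.1 hJ
  set c : ℤ := (j : ℤ) - i with hc
  have hcp : ¬ (p : ℤ) ∣ c := by
    intro h
    have h3 := Int.eq_zero_of_abs_lt_dvd h (by
      have hi := i.2
      have hj := j.2
      rw [hc, abs_lt]
      constructor <;> omega)
    apply hij
    apply Fin.ext
    omega
  have hc0 : (c : ℂ) ≠ 0 := by
    intro h0
    have : c = 0 := by exact_mod_cast h0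
    exact hcp (this ▸ dvd_zero _)
  obtain ⟨mi, hmi⟩ : ∃ m : Fin n →₀ ℕ, m = Finsupp.single i 1 := ⟨_, rfl⟩
  obtain ⟨mj, hmj⟩ : ∃ m : Fin n →₀ ℕ, m = Finsupp.single j 1 := ⟨_, rfl⟩
  obtain ⟨m0, hm0⟩ : ∃ m : Fin n →₀ ℕ, m = mi + mj := ⟨_, rfl⟩
  set f : MvPolynomial (Fin n) ℂ := monomial m0 (c : ℂ) + monomial mi 1 - monomial mj 1 with hf
  have hcoe : ∀ m, f.coeff m = (((if m0 = m then c else 0) + (if mi = m then 1 else 0) -
      (if mj = m then 1 else 0) : ℤ) : ℂ) := by
    intro m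
    rw [hf, coeff_sub, coeff_add, coeff_monomial, coeff_monomial, coeff_monomial]
    push_cast
    rfl
  have hi0 : mi ≠ m0 := by
    intro h
    have := DFunLike.congr_fun h j
    simp [hm0, hmj] at this
  have hj0 : mj ≠ m0 := by
    intro h
    have := DFunLike.congr_fun h i
    simp [hm0, hmi] at this
  have hc1 : f.coeff m0 = c := by
    rw [hcoe, if_pos rfl, if_neg hi0, if_neg hj0]
    push_cast; ring
  have hsup : ∀ m ∈ f.support, m ≤ m0 := by
    intro m hm
    rw [mem_support_iff, hcoe] at hm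
    by_cases h0 : m0 = m
    · rw [h0]
    · by_cases h1 : mi = m
      · rw [← h1, hm0]; exact le_self_add
      · by_cases h2 : mj = m
        · rw [← h2, hm0]; exact le_add_self
        · rw [if_neg h0, if_neg h1, if_neg h2] at hm
          exact absurd (by push_cast; ring) hm
  have htop : (Finsupp.equivFunOnFinite.symm fun k => f.degreeOf k) = m0 := by
    ext k
    change f.degreeOf k = m0 k
    apply le_antisymm
    · rw [degreeOf_le_iff]
      intro m hm
      exact hsup m hm k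
    · apply monomial_le_degreeOf
      rw [mem_support_iff, hc1]
      exact hc0
  refine ⟨f, ?_, fun m => ?_, ?_, ?_⟩
  · intro k hk
    rw [mem_vars_iff_mem_support] at hk
    obtain ⟨m, hm, hmk⟩ := hk
    have h1 := hsup m hm k
    rw [Finsupp.mem_support_iff] at hmk
    by_contra hcon
    simp only [Finset.mem_insert, Finset.mem_singleton, not_or] at hcon
    apply hmk
    have h2 : m0 k = 0 := by
      simp [hm0, hmi, hmj, Ne.symm hcon.1, Ne.symm hcon.2]
    omega
  · rw [hcoe]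
    exact intCast_mem O _
  · rw [htop, hc1, val_non, int_unit O hp hpO hcp]
    exact lt_irrefl _
  · rintro z ⟨t, ht⟩
    have hti := (ht i).1
    have htj := (ht j).1
    rw [hf, map_sub, map_add, eval_monomial, eval_monomial, eval_monomial]
    rw [hm0, Finsupp.prod_add_index' (by simp) (by intros; rw [pow_add])]
    rw [hmi, hmj]
    rw [Finsupp.prod_single_index (by simp), Finsupp.prod_single_index (by simp), (ht i).2, (ht j).2]
    have : (c : ℂ) = (j : ℂ) - i := by rw [hc]; push_cast; rfl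
    rw [this]
    field_simp
    ring

end

section
open Polynomial

lemma frac_aux {s a w P : ℂ} (hw : w ≠ 0) (hP : P ≠ 0) : s / w + a / P ^ 2 = (P ^ 2 * s + a * w) / (P ^ 2 * w) := by
  field_simp

/-- the translated curve -/
lemma curve_aux {n p : ℕ} (hn : 1 < n) (hp : p.Prime) :
    IsSubvariety (transl (curve n) ((p : ℤ) ^ 2 * 1) (fun i : Fin n => 1 + (i : ℤ) * p)) ∧
      dim (transl (curve n) ((p : ℤ) ^ 2 * 1) (fun i : Fin n => 1 + (i : ℤ) * p)) = 1 := by
  have hp0 : (p : ℚ) ≠ 0 := by exact_mod_cast hp.ne_zero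
  have hp0' : (p : ℂ) ≠ 0 := by exact_mod_cast hp.ne_zero
  set A : Fin n → ℚ[X] := fun i => C ((p : ℚ) ^ 2) * X + C (1 + (i : ℚ) * p) * (1 - C (i : ℚ) * X) with hA
  set B : Fin n → ℚ[X] := fun i => C ((p : ℚ) ^ 2) * (1 - C (i : ℚ) * X) with hB
  have hB0 : ∀ i, B i ≠ 0 := by
    intro i h
    have h1 := congrArg (Polynomial.eval 0) h
    simp only [hB, eval_mul, eval_C, eval_sub, eval_one, eval_X, mul_zero, sub_zero, mul_one, eval_zero] at h1
    exact pow_ne_zero 2 hp0 h1
  have eB : ∀ (i : Fin n) (s : ℂ), aeval s (B i) = (p : ℂ) ^ 2 * (1 - i * s) := by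
    intro i s
    simp [hB]
  have eA : ∀ (i : Fin n) (s : ℂ), aeval s (A i) = (p : ℂ) ^ 2 * s + (1 + i * p) * (1 - i * s) := by
    intro i s
    simp [hA]
  have hC : transl (curve n) ((p : ℤ) ^ 2 * 1) (fun i : Fin n => 1 + (i : ℤ) * p) = ratCurve A B := by
    ext z
    constructor
    · rintro ⟨s, hs⟩
      refine ⟨s, fun i => ?_, fun i => ?_⟩
      · rw [eB]
        exact mul_ne_zero (pow_ne_zero 2 hp0') (hs i).1
      · have h1 := (hs i).1
        have h2 := (hs i).2
        dsimp only at h2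
        rw [eA, eB]
        have h3 : z i = s / (1 - i * s) + (1 + i * p) / p ^ 2 := by
          push_cast at h2
          linear_combination h2
        rw [h3, frac_aux h1 hp0']
    · rintro ⟨s, h1, h2⟩
      have h3 : ∀ i : Fin n, 1 - (i : ℂ) * s ≠ 0 := by
        intro i h0
        apply h1 i
        rw [eB, h0, mul_zero]
      refine ⟨s, fun i => ⟨h3 i, ?_⟩⟩
      dsimp only
      rw [h2 i, eA, eB, ← frac_aux (h3 i) hp0']
      push_cast
      ring
  have hint : (MvPolynomial.aeval (xR A B) : MvPolynomial (Fin n) ℂ →ₐ[ℂ] _).toRingHom.IsIntegral := by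
    refine isIntegral_xR A B (⟨0, by omega⟩ : Fin n) ?_ fun i => ?_
    · have h1 : B ⟨0, by omega⟩ = C ((p : ℚ) ^ 2) := by simp [hB]
      have h2 : A ⟨0, by omega⟩ = C ((p : ℚ) ^ 2) * X + C 1 := by simp [hA]
      rw [h1, h2, natDegree_C, natDegree_linear (pow_ne_zero 2 hp0)]
      exact one_pos
    · rw [← Polynomial.coe_mapRingHom]
      refine IsCoprime.map ⟨C ((i : ℚ) / p ^ 2), C ((1 - (i : ℚ) / p ^ 2 * (1 + i * p)) / p ^ 2), ?_⟩ _
      have e1 : C ((i : ℚ) / p ^ 2) * C ((p : ℚ) ^ 2) = C (i : ℚ) := by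
        rw [← C_mul]; congr 1; field_simp
      have e2 : C ((1 - (i : ℚ) / p ^ 2 * (1 + i * p)) / p ^ 2) * C ((p : ℚ) ^ 2) =
          1 - C ((i : ℚ) / p ^ 2) * C (1 + (i : ℚ) * p) := by
        rw [← C_mul, ← C_mul, ← C_1, ← C_sub]; congr 1; field_simp
      simp only [hA, hB]
      linear_combination X * e1 + (1 - C (i : ℚ) * X) * e2
  rw [hC, ratCurve_eq]
  exact ⟨isSubvariety_curveOf _ (DD_ne_zero B hB0) hint, dim_curveOf _ (DD_ne_zero B hB0) hint⟩

end

end Pool.Agent.Helper11.ZT
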